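import Pool.Agent.Helper94.GA.Goals

namespace Pool.Agent.Helper90.GA

open Matrix
open scoped ComplexOrder MatrixOrder

lemma one_add_sum_le_prod {ι : Type*} (s : Finset ι) (f : ι → ℝ) (hf : ∀ i ∈ s, 0 ≤ f i) :
    1 + ∑ i ∈ s, f i ≤ ∏ i ∈ s, (1 + f i) := by
  classical
  induction s using Finset.induction_on with
  | empty => simp
  | insert a s ha ih =>
    rw [Finset.sum_insert ha, Finset.prod_insert ha]
    have h1 := ih (fun i hi => hf i (Finset.mem_insert_of_mem hi))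
    have h2 := hf a (Finset.mem_insert_self a s)
    have h3 : 0 ≤ ∑ i ∈ s, f i :=
      Finset.sum_nonneg (fun i hi => hf i (Finset.mem_insert_of_mem hi))
    have h4 := mul_le_mul_of_nonneg_left h1 (by linarith : (0:ℝ) ≤ 1 + f a)
    nlinarith [mul_nonneg h2 h3]

lemma det_one_add {e : ℕ} (T : Matrix (Fin e) (Fin e) ℂ) (hT : T.IsHermitian) :
    (1 + T).det = ∏ i, (1 + (hT.eigenvalues i : ℂ)) := by
  have h := hT.charpoly_eq
  have h2 := congrArg (Polynomial.eval (-1 : ℂ)) h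
  rw [Matrix.eval_charpoly, Polynomial.eval_prod] at h2
  have h3 : (Matrix.scalar (Fin e)) (-1 : ℂ) - T = -(1 + T) := by
    have : (Matrix.scalar (Fin e)) (-1 : ℂ) = -1 := by
      rw [map_neg, map_one]
    rw [this]; abel
  rw [h3, Matrix.det_neg] at h2
  simp only [Polynomial.eval_sub, Polynomial.eval_X, Polynomial.eval_C, Fintype.card_fin] at h2
  have h4 : ∏ i, (-1 - (hT.eigenvalues i : ℂ)) =
      (-1 : ℂ) ^ e * ∏ i, (1 + (hT.eigenvalues i : ℂ)) := by
    have : ∀ i, (-1 - (hT.eigenvalues i : ℂ)) = (-1) * (1 + (hT.eigenvalues i : ℂ)) := by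
      intro i; ring
    simp_rw [this]
    rw [Finset.prod_mul_distrib]
    simp
  have h5 : ((-1 : ℂ) ^ e) ≠ 0 := pow_ne_zero _ (by norm_num)
  have h6 : (-1 : ℂ) ^ e * (1 + T).det = (-1 : ℂ) ^ e * ∏ i, (1 + (hT.eigenvalues i : ℂ)) := by
    rw [← h4]; exact h2
  exact mul_left_cancel₀ h5 h6

theorem DET : Pool.Agent.Helper94.GA.DET_stmt := by
  intro e A P hA hP
  have hd := hA.det_pos
  have hd' := Complex.pos_iff.mp hd
  obtain ⟨R, hR⟩ := CStarAlgebra.nonneg_iff_eq_star_mul_self.mp hA.posSemidef.nonneg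
  rw [star_eq_conjTranspose] at hR
  have hRdet : R.det ≠ 0 := by
    intro h0
    rw [hR, det_mul, h0, mul_zero] at hd
    exact lt_irrefl _ hd
  have hRu : IsUnit R.det := isUnit_iff_ne_zero.mpr hRdet
  have hRHu : IsUnit (Rᴴ).det := by
    rw [det_conjTranspose]; exact isUnit_iff_ne_zero.mpr (star_ne_zero.mpr hRdet)
  set T : Matrix (Fin e) (Fin e) ℂ := (R⁻¹)ᴴ * P * R⁻¹ with hTdef
  have hT : T.PosSemidef := hP.conjTranspose_mul_mul_same R⁻¹
  have hRR : R⁻¹ * R = 1 := nonsing_inv_mul R hRu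
  have hRR' : Rᴴ * (R⁻¹)ᴴ = 1 := by
    rw [← conjTranspose_mul, hRR, conjTranspose_one]
  have hAP : A + P = Rᴴ * (1 + T) * R := by
    rw [mul_add, add_mul, mul_one, ← hR, hTdef]
    congr 1
    calc P = (Rᴴ * (R⁻¹)ᴴ) * P * (R⁻¹ * R) := by rw [hRR, hRR', one_mul, mul_one]
      _ = Rᴴ * ((R⁻¹)ᴴ * P * R⁻¹) * R := by simp only [Matrix.mul_assoc]
  have hdet : (A + P).det = A.det * (1 + T).det := by
    rw [hAP, det_mul, det_mul, hR, det_mul]; ring
  have htr : (A⁻¹ * P).trace = T.trace := by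
    have hAinv : A⁻¹ = R⁻¹ * (R⁻¹)ᴴ := by
      rw [hR, Matrix.mul_inv_rev, conjTranspose_nonsing_inv]
    rw [hAinv, hTdef, Matrix.mul_assoc, Matrix.trace_mul_comm, Matrix.mul_assoc]
  have hev := fun i => hT.eigenvalues_nonneg i
  have h1 := det_one_add T hT.1
  have h2 := hT.1.trace_eq_sum_eigenvalues
  have h3 := one_add_sum_le_prod Finset.univ (fun i => hT.1.eigenvalues i) (fun i _ => hev i)
  have h1' : (1 + T).det = ((∏ i, (1 + hT.1.eigenvalues i) : ℝ) : ℂ) := by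
    rw [h1]; push_cast; rfl
  have h2' : T.trace = ((∑ i, hT.1.eigenvalues i : ℝ) : ℂ) := by
    rw [h2]; push_cast; rfl
  refine ⟨hd'.1, hd'.2.symm, ?_, ?_⟩
  · rw [htr, h2', Complex.ofReal_re]
    exact Finset.sum_nonneg (fun i _ => hev i)
  · rw [htr, hdet, h2', h1', Complex.ofReal_re, Complex.re_mul_ofReal]
    exact mul_le_mul_of_nonneg_left h3 hd'.1.le

end Pool.Agent.Helper90.GA
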